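import Pool.Agent.N639.FH.FinQ

set_option autoImplicit false

/-! From characteristic functions to the laws of the digits, for families of finite sequences of natural numbers. -/

namespace Pool.Agent.J4.H78.PM

open Finset Real MeasureTheory Pool.Agent.Y933.KD Filter Topology
open Pool.Agent.N639.FS Pool.Agent.N639.FG Pool.Agent.N639.FH
open Pool.Agent.Y933.KE (WE smear meas_map smear_prob wd_smear real_smear measurableSet_WE WE_eq)

/-- the tests on words of the digits -/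
theorem words_gen {q : ℕ} (hq1 : 1 ≤ q) (k : ℕ) {κ : ℝ} (hκ : 0 < κ) {M : ℕ} (hM1 : 1 ≤ M)
    (T : Finset ℕ) (hT : T.Nonempty) (Y : ℕ → ℕ) (s J : ℕ)
    (hhat : ∀ (n : Fin k → ℕ) (h : Fin k → ℤ), (∀ i, n i ≤ J) →
      (∀ i, |(h i : ℝ)| ≤ exp (κ * log M)) → ∑ i, h i * (q : ℤ) ^ n i ≠ 0 →
      ‖hat (unif T (fun m => ((Y m : ℕ) : ℝ) / (q : ℝ) ^ (s + J)))
        (∑ i, h i * (q : ℤ) ^ n i)‖ ≤ exp (-(κ * log M)))
    (n w c : Fin k → ℕ) (hn : ∀ i, n i + w i ≤ J) :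
    |((T.filter (fun m => ∀ r, Y m / q ^ s / q ^ (J - (n r + w r)) % q ^ (w r) =
        c r)).card : ℝ) / T.card - Leb.real (WE q n w c)| ≤
      (3 ^ k + k * 29) * (M : ℝ) ^ (-(κ / (3 * k + 4))) := by
  have hq0 : (0 : ℝ) < q := by exact_mod_cast (by omega : 0 < q)
  have hMp : (0 : ℝ) < M := by exact_mod_cast hM1
  have hlM : 0 ≤ log (M : ℝ) := Real.log_natCast_nonneg M
  have hpos : (0 : ℝ) ≤ (3 ^ k + (k : ℝ) * 29) * (M : ℝ) ^ (-(κ / (3 * k + 4))) := by positivity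
  -- the proportion as a probability
  set x : ℕ → ℝ := fun m => ((Y m : ℕ) : ℝ) / (q : ℝ) ^ (s + J) with hx
  have hP := unif_prob hT x
  classical
  have e1 : ((T.filter (fun m => ∀ r, Y m / q ^ s / q ^ (J - (n r + w r)) %
      q ^ (w r) = c r)).card : ℝ) / T.card = (unif T x).real (WE q n w c) := by
    rw [real_unif _ _ (measurableSet_WE _ _ _ _)]
    congr 2
    congr 1
    refine filter_congr fun m _ => ?_
    unfold WE
    simp only [Set.mem_ofPred_eq]
    refine forall_congr' fun r => ?_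
    have h1 : n r + w r ≤ s + J := by have := hn r; omega
    have h2 := wd_smear hq1 h1 (Y m) (θ := 0) (by simp)
    rw [add_zero] at h2
    have h3 : s + J - (n r + w r) = s + (J - (n r + w r)) := by have := hn r; omega
    rw [hx]
    simp only
    rw [h2, h3, pow_add, Nat.div_div_eq_div_mul]
  rw [e1]
  by_cases hc : ∀ i, c i < q ^ w i
  · rw [WE_eq hq1]
    have key := Pool.Agent.N586.RT.events_test (b := q) hq1 (τ := κ * log M) (by positivity)
      (unif T x) n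
      (fun h hh hne => hhat n h (fun i => by have := hn i; omega) hh hne)
      (fun i => (c i : ℝ) / (q : ℝ) ^ (w i)) (fun i => ((c i : ℝ) + 1) / (q : ℝ) ^ (w i))
      (fun i => by positivity) (fun i => by
        rw [div_le_one (by positivity)]
        exact_mod_cast hc i)
    refine key.trans (le_of_eq ?_)
    congr 1
    rw [Real.rpow_def_of_pos hMp]
    congr 1
    ring
  · push Not at hc
    obtain ⟨i, hi⟩ := hc
    have e2 : WE q n w c = ∅ := by
      ext y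
      simp only [Set.mem_empty_iff_false, iff_false]
      intro hy
      have h1 := hy i
      have h2 := wd_lt hq1 (w i) (n i) y
      omega
    rw [e2]
    simp only [measureReal_empty, sub_self, abs_zero]
    exact hpos

/-- the laws of the digits of `Y m`, `m ∈ T`, at the places `s, …, s + J - 1`, for the `(T, Y, s, J)` in `F M` -/
def SF (q : ℕ) (F : ℕ → Set (Finset ℕ × (ℕ → ℕ) × ℕ × ℕ)) (M : ℕ) : Set (Measure ℝ) :=
  {P | ∃ x ∈ F M, P = smear x.1 (fun m => x.2.1 m / q ^ x.2.2.1) q x.2.2.2}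

theorem tg_gen {q : ℕ} (hq : 2 ≤ q) (F : ℕ → Set (Finset ℕ × (ℕ → ℕ) × ℕ × ℕ))
    (hne : ∀ M, ∀ x ∈ F M, x.1.Nonempty)
    (hhat : ∀ k : ℕ, ∃ κ : ℝ, 0 < κ ∧ ∃ M0 : ℕ, ∀ M : ℕ, M0 ≤ M → ∀ x ∈ F M,
      ∀ (n : Fin k → ℕ) (h : Fin k → ℤ), (∀ i, n i ≤ x.2.2.2) →
      (∀ i, |(h i : ℝ)| ≤ exp (κ * log M)) → ∑ i, h i * (q : ℤ) ^ n i ≠ 0 →
      ‖hat (unif x.1 (fun m => ((x.2.1 m : ℕ) : ℝ) / (q : ℝ) ^ (x.2.2.1 + x.2.2.2)))
        (∑ i, h i * (q : ℤ) ^ n i)‖ ≤ exp (-(κ * log M)))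
    {A : ℝ} (hA : 0 < A) : TG q (fun M => A * log M) (SF q F) := by
  refine tg_of_words hq hA (by linarith : A < A + 1) ?_ fun k => ?_
  · rintro M _ P ⟨x, hx, rfl⟩
    exact smear_prob (hne M x hx) _ _ _
  · obtain ⟨κ, hκ, M0, h⟩ := hhat k
    refine ⟨κ / (3 * k + 4), by positivity, 3 ^ k + k * 29, ?_⟩
    filter_upwards [eventually_ge_atTop (max M0 1)] with M hM P hP n w c _
    obtain ⟨x, hx, rfl⟩ := hP
    exact tw_smear (by omega : 1 ≤ q) x.1 (fun m => x.2.1 m / q ^ x.2.2.1) x.2.2.2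
      (fun n w c hn => words_gen (by omega) k hκ (le_of_max_le_right hM) x.1 (hne M x hx) x.2.1
        x.2.2.1 x.2.2.2 (h M (le_of_max_le_left hM) x hx) n w c hn) n w c

end Pool.Agent.J4.H78.PM
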