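import Pool.Agent.J4.H78.RD.Weyl

set_option autoImplicit false

/-! Power saving in exponential sums over polynomial values at integers with restricted digits, if the
leading coefficient has no very good rational approximations. -/

namespace Pool.Agent.J4.H78.PM
open Finset
open Pool.Agent.H807R2.Dav
open Pool.Agent.TH872.Sq (Dig P P_nonneg P_le P_sum ex_split_real)
open Pool.Agent.J4.H93.PD
open Pool.Agent.J4.H78.RD (SD wD dig_wD sum_SD SD_card_pos)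

/-- **Power saving**, if the leading coefficient has no approximations `a / Q` with `Q ≤ (b ^ k) ^ τ` and
`|θ - a / Q| ≤ (b ^ k) ^ (- (m - σ))`. -/
theorem weyl_pow2 (b : ℕ) (hb : 2 ≤ b) (m : ℕ) (hm : 2 ≤ m) (τ σ : ℝ) (hτ : 0 < τ) (hσ : 0 < σ) :
    ∃ η : ℝ, 0 < η ∧ ∃ K₀ : ℕ, ∀ k : ℕ, K₀ ≤ k → ∀ D : ℕ → Finset ℕ,
    (∀ i < k, D i ⊆ range b ∧ 2 ≤ (D i).card) → ∀ (θ : ℝ) (F : ℝ → ℝ), PF m θ F →
    (∀ Q : ℕ, 1 ≤ Q → (Q : ℝ) ≤ ((b : ℝ) ^ k) ^ τ → ∀ a : ℤ, ((b : ℝ) ^ k) ^ (-((m : ℝ) - σ)) < |θ - a / Q|) →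
    ‖∑ n ∈ SD b D k, ee (F n)‖ ≤ (SD b D k).card * ((b : ℝ) ^ k) ^ (-η) := by
  obtain ⟨e, rfl⟩ : ∃ e, m = e + 2 := ⟨m - 2, by omega⟩
  obtain ⟨s, f, c₁, c₂, hs, hf, hweyl⟩ := weyl_deg b hb (1 / 2) (by norm_num) (by norm_num) e
  have hb2 : (2 : ℝ) ≤ b := by exact_mod_cast hb
  have hb0 : (0 : ℝ) < b := by linarith
  have hlogb : 0 < Real.log b := Real.log_pos (by linarith)
  obtain ⟨M, hM⟩ : ∃ M, M = 2 ^ (e + 1) * s := ⟨_, rfl⟩
  have hM1 : 1 ≤ M := by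
    rw [hM]
    exact Nat.mul_pos (by positivity) hs
  obtain ⟨N, hN⟩ : ∃ N : ℕ, N = 4 * (e + 2) + ⌈(c₂ : ℝ) / σ⌉₊ + ⌈2 * (c₁ : ℝ) / τ⌉₊ + 1 := ⟨_, rfl⟩
  have hN1 : 1 ≤ N := by omega
  have hN0 : (0 : ℝ) < N := by exact_mod_cast (by omega : 0 < N)
  have hM0 : (0 : ℝ) < M := by exact_mod_cast (by omega : 0 < M)
  obtain ⟨t, ht⟩ : ∃ t : ℝ, t = -Real.log (3 / 4) := ⟨_, rfl⟩
  have ht0 : 0 < t := by
    rw [ht, neg_pos]
    exact Real.log_neg (by norm_num) (by norm_num)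
  -- the saving
  obtain ⟨η, hη⟩ : ∃ η : ℝ, η = t / (2 * N * M * Real.log b) := ⟨_, rfl⟩
  have hη0 : 0 < η := by rw [hη]; positivity
  obtain ⟨k₁, hk₁⟩ := exists_nat_ge ((Real.log (e + 1) + t) * (2 * N) / t)
  obtain ⟨k₂, hk₂⟩ := exists_nat_ge (2 * Real.log f / (τ * Real.log b))
  refine ⟨η, hη0, k₁ + k₂ + 2 * N, fun k hk D hD θ F hF hθ => ?_⟩
  have hkr : (0 : ℝ) ≤ k := Nat.cast_nonneg k
  obtain ⟨L, hL⟩ : ∃ L, L = k / N := ⟨_, rfl⟩
  have hLN : N * L ≤ k := by rw [hL]; exact Nat.mul_div_le k N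
  have hLk : k < N * (L + 1) := by
    rw [hL]
    exact Nat.lt_mul_div_succ k (by omega)
  have hL2 : 2 ≤ L := by
    rw [hL, Nat.le_div_iff_mul_le (by omega)]
    omega
  have hZ0 : (0 : ℝ) < (b : ℝ) ^ k := by positivity
  have hZpow : ∀ x : ℝ, ((b : ℝ) ^ k) ^ x = Real.exp (x * k * Real.log b) := by
    intro x
    rw [← Real.rpow_natCast, ← Real.rpow_mul hb0.le, Real.rpow_def_of_pos hb0]
    congr 1
    ring
  have hmain := hweyl k L hL2 (by
    calc 4 * (e + 2) * L ≤ N * L := Nat.mul_le_mul_right _ (by omega)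
      _ ≤ k := hLN) (wD D k) (dig_wD b hb D k hD) 0 θ F hF
  rcases hmain with h | ⟨Q, a, hQ1, hQ2, hQ3⟩
  · rw [sum_SD b hb D k hD, norm_mul]
    rw [show ‖((SD b D k).card : ℂ)‖ = ((SD b D k).card : ℝ) from by simp]
    apply mul_le_mul_of_nonneg_left _ (Nat.cast_nonneg _)
    rw [← hM] at h
    refine le_of_pow_le_pow_left₀ (by omega : M ≠ 0) (by positivity) (h.trans ?_)
    rw [hZpow, ← Real.exp_nat_mul]
    have he1 : (0 : ℝ) < (e : ℝ) + 1 := by positivity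
    have h34 : (1 - (1 / 2 : ℝ) / 2) = 3 / 4 := by norm_num
    rw [h34]
    have e1 : (3 / 4 : ℝ) ^ L = Real.exp (-(t * L)) := by
      rw [ht, ← Real.exp_log (by norm_num : (0 : ℝ) < 3 / 4), ← Real.exp_nat_mul, Real.log_exp]
      congr 1
      ring
    have e2 : ((e : ℝ) + 1) = Real.exp (Real.log (e + 1)) := (Real.exp_log he1).symm
    rw [e1]
    nth_rewrite 1 [e2]
    rw [← Real.exp_add]
    apply Real.exp_le_exp.2
    have e3 : (M : ℝ) * (-η * k * Real.log b) = -(t * k / (2 * N)) := by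
      rw [hη]
      field_simp
    rw [e3]
    have e4 : (k : ℝ) ≤ N * (L + 1) := by exact_mod_cast hLk.le
    have e5 : (k₁ : ℝ) ≤ k := by exact_mod_cast (by omega : k₁ ≤ k)
    have e6 : (Real.log (e + 1) + t) * (2 * N) ≤ k * t := by
      have := hk₁.trans e5
      rwa [div_le_iff₀ ht0] at this
    have e7 : t * k / (2 * N) + (Real.log (e + 1) + t) ≤ t * k / N := by
      rw [div_add' _ _ _ (by positivity), div_le_div_iff₀ (by positivity) hN0]
      have : 0 ≤ (N : ℝ) := hN0.le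
      nlinarith
    have e8 : t * k / N ≤ t * (L + 1) := by
      rw [div_le_iff₀ hN0]
      nlinarith
    linarith
  · exfalso
    have hQr : (0 : ℝ) < Q := by exact_mod_cast hQ1
    have h1 : (Q : ℝ) ≤ ((b : ℝ) ^ k) ^ τ := by
      have h2 : (Q : ℝ) ≤ f * (b : ℝ) ^ (c₁ * L) := by exact_mod_cast hQ2
      refine h2.trans ?_
      have hf0 : (0 : ℝ) < f := by exact_mod_cast hf
      have e1 : (f : ℝ) * (b : ℝ) ^ (c₁ * L) = Real.exp (Real.log f + (c₁ * L : ℕ) * Real.log b) := by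
        rw [Real.exp_add, Real.exp_log hf0, Real.exp_nat_mul, Real.exp_log hb0]
      rw [e1, hZpow]
      apply Real.exp_le_exp.2
      have e2 : (k₂ : ℝ) ≤ k := by exact_mod_cast (by omega : k₂ ≤ k)
      have e3 : 2 * Real.log f ≤ k * (τ * Real.log b) := by
        have := hk₂.trans e2
        rwa [div_le_iff₀ (by positivity)] at this
      have e4 : 2 * ((c₁ * L : ℕ) : ℝ) ≤ τ * k := by
        have g1 : 2 * (c₁ : ℝ) / τ ≤ N := by
          refine (Nat.le_ceil _).trans ?_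
          rw [hN]
          push_cast
          have : (0 : ℝ) ≤ 4 * ((e : ℝ) + 2) + ⌈(c₂ : ℝ) / σ⌉₊ := by positivity
          linarith
        rw [div_le_iff₀ hτ] at g1
        have g2 : (N : ℝ) * L ≤ k := by exact_mod_cast hLN
        have g3 : (0 : ℝ) ≤ L := Nat.cast_nonneg L
        push_cast
        calc 2 * ((c₁ : ℝ) * L) = 2 * (c₁ : ℝ) * L := by ring
          _ ≤ N * τ * L := mul_le_mul_of_nonneg_right g1 g3
          _ = τ * (N * L) := by ring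
          _ ≤ τ * k := mul_le_mul_of_nonneg_left g2 hτ.le
      nlinarith
    have h2 := hθ Q hQ1 h1 a
    have h3 : (b : ℝ) ^ (c₂ * L) ≤ ((b : ℝ) ^ k) ^ σ := by
      rw [hZpow, show (b : ℝ) ^ (c₂ * L) = Real.exp ((c₂ * L : ℕ) * Real.log b) from by
        rw [Real.exp_nat_mul, Real.exp_log hb0]]
      apply Real.exp_le_exp.2
      apply mul_le_mul_of_nonneg_right _ hlogb.le
      have g1 : (c₂ : ℝ) / σ ≤ N := by
        refine (Nat.le_ceil _).trans ?_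
        rw [hN]
        push_cast
        have : (0 : ℝ) ≤ 4 * ((e : ℝ) + 2) + ⌈2 * (c₁ : ℝ) / τ⌉₊ := by positivity
        linarith
      rw [div_le_iff₀ hσ] at g1
      have g2 : (N : ℝ) * L ≤ k := by exact_mod_cast hLN
      have g3 : (0 : ℝ) ≤ L := Nat.cast_nonneg L
      push_cast
      calc (c₂ : ℝ) * L ≤ N * σ * L := mul_le_mul_of_nonneg_right g1 g3
        _ = σ * (N * L) := by ring
        _ ≤ σ * k := mul_le_mul_of_nonneg_left g2 hσ.le
    have h4 : (b : ℝ) ^ ((e + 2) * k) = ((b : ℝ) ^ k) ^ (((e + 2 : ℕ) : ℝ)) := by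
      rw [Real.rpow_natCast, ← pow_mul, mul_comm]
    have h5 : ((b : ℝ) ^ k) ^ (-(((e + 2 : ℕ) : ℝ) - σ)) * (b : ℝ) ^ ((e + 2) * k) <
        |θ - a / Q| * (b : ℝ) ^ ((e + 2) * k) := mul_lt_mul_of_pos_right h2 (by positivity)
    have h6 : ((b : ℝ) ^ k) ^ (-(((e + 2 : ℕ) : ℝ) - σ)) * (b : ℝ) ^ ((e + 2) * k) = ((b : ℝ) ^ k) ^ σ := by
      rw [h4, ← Real.rpow_add hZ0]
      congr 1
      ring
    rw [h6] at h5
    linarith

end Pool.Agent.J4.H78.PM
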