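import Pool.Agent.J4.H78.PM.Far
import Pool.Agent.J4.H78.PM.Weyl2
import Pool.Agent.J4.H78.PM.TGen

set_option autoImplicit false

/-! The family: values of polynomials with the leading coefficient `c p ^ N` at integers with restricted digits. -/

namespace Pool.Agent.J4.H78.PM

open Finset Real MeasureTheory Filter Topology
open Pool.Agent.Y933.KD (hat unif integral_unif Leb)
open Pool.Agent.J4.H78.RD (SD SD_card_pos)
open Pool.Agent.J4.H93.PD (PF)
open Pool.Agent.H807R2.Dav (ee ee_eq norm_ee)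

lemma e_eq' (x : ℝ) : Pool.Agent.Y933.KD.e x = ee x := by
  unfold Pool.Agent.Y933.KD.e
  rw [ee_eq]

/-- the family -/
def FD (p q b d : ℕ) (A C δ : ℝ) (M : ℕ) : Set (Finset ℕ × (ℕ → ℕ) × ℕ × ℕ) :=
  {x | ∃ (K : ℕ) (D : ℕ → Finset ℕ) (N : ℕ) (c : ℤ) (G : ℝ → ℝ), M = b ^ K ∧
    (∀ i < K, D i ⊆ range b ∧ 2 ≤ (D i).card) ∧ x.1 = SD b D K ∧ (N : ℝ) ≤ A * K ∧
    c ≠ 0 ∧ |(c : ℝ)| ≤ (K : ℝ) ^ C ∧ PF d (c * (p : ℝ) ^ N) G ∧
    (∀ n ∈ SD b D K, (x.2.1 n : ℝ) = G n) ∧ δ * K ≤ x.2.2.1 ∧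
    (q : ℝ) ^ (x.2.2.1 + x.2.2.2) ≤ (p : ℝ) ^ N * ((b : ℝ) ^ K) ^ ((d : ℝ) - δ)}

/-- multiples of polynomial functions -/
lemma PF_mul {d : ℕ} {x : ℝ} {G : ℝ → ℝ} (hG : PF d x G) (t : ℝ) : PF d (x * t) (fun y => G y * t) := by
  obtain ⟨c, hc, hG⟩ := hG
  refine ⟨fun i => c i * t, by simp only [hc], fun y => ?_⟩
  simp only
  rw [hG y, sum_mul]
  exact sum_congr rfl fun i _ => by ring

theorem FD_ne (p q b d : ℕ) (hb : 2 ≤ b) (A C δ : ℝ) : ∀ M, ∀ x ∈ FD p q b d A C δ M, x.1.Nonempty := by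
  rintro M x ⟨K, D, N, c, G, hM, hD, hx1, _⟩
  rw [hx1, ← card_pos]
  have := SD_card_pos b hb D K hD
  exact_mod_cast this

/-- the characteristic functions -/
theorem FD_hat {p q : ℕ} (b d : ℕ) (hp : 2 ≤ p) (hq : 2 ≤ q) (hpq : p.Coprime q) (hb : 2 ≤ b) (hd : 2 ≤ d)
    (A C δ : ℝ) (hδ : 0 < δ) (hδ1 : δ ≤ 1) (k : ℕ) :
    ∃ κ : ℝ, 0 < κ ∧ ∃ M0 : ℕ, ∀ M : ℕ, M0 ≤ M → ∀ x ∈ FD p q b d A C δ M,
      ∀ (n : Fin k → ℕ) (h : Fin k → ℤ), (∀ i, n i ≤ x.2.2.2) →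
      (∀ i, |(h i : ℝ)| ≤ exp (κ * log M)) → ∑ i, h i * (q : ℤ) ^ n i ≠ 0 →
      ‖hat (unif x.1 (fun m => ((x.2.1 m : ℕ) : ℝ) / (q : ℝ) ^ (x.2.2.1 + x.2.2.2)))
        (∑ i, h i * (q : ℤ) ^ n i)‖ ≤ exp (-(κ * log M)) := by
  have hqR : (2 : ℝ) ≤ q := by exact_mod_cast hq
  have hq0 : (0 : ℝ) < q := by linarith
  have hq1 : (1 : ℝ) ≤ q := by linarith
  have hpR : (2 : ℝ) ≤ p := by exact_mod_cast hp
  have hp0 : (0 : ℝ) < p := by linarith
  have hbR : (2 : ℝ) ≤ b := by exact_mod_cast hb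
  have hb0 : (0 : ℝ) < b := by linarith
  have hlq : 0 < log (q : ℝ) := Real.log_pos (by linarith)
  have hlp : 0 < log (p : ℝ) := Real.log_pos (by linarith)
  have hlb : 0 < log (b : ℝ) := Real.log_pos (by linarith)
  have hdR : (2 : ℝ) ≤ d := by exact_mod_cast hd
  -- the bound for the numbers of places
  obtain ⟨A₁, hA₁⟩ : ∃ A₁ : ℝ, A₁ = |A| + (|A| * log p + d * log b) / log q := ⟨_, rfl⟩
  have hA₁A : |A| ≤ A₁ := by
    rw [hA₁]
    have : 0 ≤ (|A| * log p + d * log b) / log q := by positivity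
    linarith
  obtain ⟨δ', hδ'⟩ : ∃ δ' : ℝ, δ' = δ * log b / 4 := ⟨_, rfl⟩
  have hδ'0 : 0 < δ' := by rw [hδ']; positivity
  obtain ⟨η₀, hη₀, L₀, hfar⟩ := powers_far2 hp hq hpq k A₁ δ' hδ'0
  -- the size of the coefficients
  obtain ⟨η', hη'⟩ : ∃ η' : ℝ, η' = min η₀ (δ * log q / 2) := ⟨_, rfl⟩
  have hη'0 : 0 < η' := by rw [hη']; exact lt_min hη₀ (by positivity)
  have hη'1 : η' ≤ η₀ := by rw [hη']; exact min_le_left _ _
  have hη'2 : η' ≤ δ * log q / 2 := by rw [hη']; exact min_le_right _ _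
  obtain ⟨τ, hτ⟩ : ∃ τ : ℝ, τ = min (δ / 4) (η' / (4 * log b)) := ⟨_, rfl⟩
  have hτ0 : 0 < τ := by rw [hτ]; exact lt_min (by positivity) (by positivity)
  have hτ1 : τ ≤ δ / 4 := by rw [hτ]; exact min_le_left _ _
  have hτ2 : τ * log b ≤ η' / 4 := by
    have h1 : τ ≤ η' / (4 * log b) := by rw [hτ]; exact min_le_right _ _
    calc τ * log b ≤ η' / (4 * log b) * log b := mul_le_mul_of_nonneg_right h1 hlb.le
      _ = η' / 4 := by field_simp
  obtain ⟨η₂, hη₂, K₀, hweyl⟩ := weyl_pow2 b hb d hd τ (δ / 2) hτ0 (by positivity)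
  obtain ⟨κ, hκ⟩ : ∃ κ : ℝ, κ = min η₂ (η' / (4 * log b)) := ⟨_, rfl⟩
  have hκ0 : 0 < κ := by rw [hκ]; exact lt_min hη₂ (by positivity)
  have hκ1 : κ ≤ η₂ := by rw [hκ]; exact min_le_left _ _
  have hκ2 : κ * log b ≤ η' / 4 := by
    have h1 : κ ≤ η' / (4 * log b) := by rw [hκ]; exact min_le_right _ _
    calc κ * log b ≤ η' / (4 * log b) * log b := mul_le_mul_of_nonneg_right h1 hlb.le
      _ = η' / 4 := by field_simp
  -- large K
  have hev : ∀ᶠ K : ℕ in atTop, (k : ℝ) * (K : ℝ) ^ C ≤ exp (η' / 4 * K) := by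
    have h1 : Tendsto (fun K : ℝ => K ^ C * exp (-(η' / 4) * K)) atTop (𝓝 0) :=
      tendsto_rpow_mul_exp_neg_mul_atTop_nhds_zero C (η' / 4) (by positivity)
    have h2 := (h1.comp tendsto_natCast_atTop_atTop).const_mul (k : ℝ)
    rw [mul_zero] at h2
    filter_upwards [h2.eventually_le_const (zero_lt_one)] with K hK
    simp only [Function.comp] at hK
    rw [neg_mul, exp_neg, ← mul_assoc, ← div_eq_mul_inv, div_le_one (exp_pos _)] at hK
    exact hK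
  obtain ⟨K₁, hK₁⟩ := eventually_atTop.1 hev
  obtain ⟨K₂, hK₂⟩ : ∃ K₂, K₂ = K₀ + K₁ + L₀ + 1 := ⟨_, rfl⟩
  refine ⟨κ, hκ0, b ^ K₂, fun M hM x hx n h hn hh hne => ?_⟩
  obtain ⟨K, D, N, c, G, hMK, hD, hx1, hN, hc0, hcC, hG, hY, hs, hJ⟩ := hx
  have hKK : K₂ ≤ K := by
    rw [hMK] at hM
    exact (Nat.pow_le_pow_iff_right (by omega)).1 hM
  obtain ⟨T, Y, s, J⟩ := x
  simp only at hx1 hY hs hJ hn ⊢
  subst hx1
  have hKR : (1 : ℝ) ≤ K := by exact_mod_cast (by omega : 1 ≤ K)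
  have hK0 : (0 : ℝ) ≤ K := by linarith
  have hlM : log (M : ℝ) = K * log b := by
    rw [hMK, Nat.cast_pow, Real.log_pow]
  have hZ0 : (0 : ℝ) < (b : ℝ) ^ K := by positivity
  have hZ1 : (1 : ℝ) ≤ (b : ℝ) ^ K := one_le_pow₀ (by linarith)
  have hZpow : ∀ y : ℝ, ((b : ℝ) ^ K) ^ y = Real.exp (y * K * Real.log b) := by
    intro y
    rw [← Real.rpow_natCast, ← Real.rpow_mul hb0.le, Real.rpow_def_of_pos hb0]
    congr 1
    ring
  set ℓ : ℤ := ∑ i, h i * (q : ℤ) ^ n i with hℓ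
  have hk : 0 < k := by
    rcases Nat.eq_zero_or_pos k with h0 | h0
    · exfalso
      subst h0
      apply hne
      rw [hℓ]
      simp
    · exact h0
  have hk1 : (1 : ℝ) ≤ k := by exact_mod_cast hk
  -- the number of places
  have hJA : ((s + J : ℕ) : ℝ) ≤ A₁ * K := by
    have h1 := Real.log_le_log (by positivity) hJ
    rw [Real.log_mul (by positivity) (by positivity), Real.log_pow, Real.log_pow, Real.log_rpow hZ0, Real.log_pow] at h1
    have h2 : (N : ℝ) * log p ≤ |A| * K * log p := by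
      apply mul_le_mul_of_nonneg_right _ hlp.le
      exact hN.trans (mul_le_mul_of_nonneg_right (le_abs_self A) hK0)
    have h3 : ((d : ℝ) - δ) * (K * log b) ≤ d * (K * log b) :=
      mul_le_mul_of_nonneg_right (by linarith) (by positivity)
    have h4 : ((s + J : ℕ) : ℝ) ≤ (|A| * log p + d * log b) / log q * K := by
      rw [div_mul_eq_mul_div, le_div_iff₀ hlq]
      calc ((s + J : ℕ) : ℝ) * log q ≤ N * log p + ((d : ℝ) - δ) * (K * log b) := h1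
        _ ≤ |A| * K * log p + d * (K * log b) := add_le_add h2 h3
        _ = _ := by ring
    refine h4.trans (mul_le_mul_of_nonneg_right ?_ hK0)
    rw [hA₁]
    linarith [abs_nonneg A]
  have hB1 : 1 ≤ ((b : ℝ) ^ K) ^ ((d : ℝ) - δ) := Real.one_le_rpow hZ1 (by linarith)
  -- the characteristic function as a sum
  have hsum : hat (unif (SD b D K) (fun m => ((Y m : ℕ) : ℝ) / (q : ℝ) ^ (s + J))) ℓ =
      (1 / ((SD b D K).card : ℂ)) * ∑ m ∈ SD b D K, ee (G m * ((ℓ : ℝ) / (q : ℝ) ^ (s + J))) := by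
    unfold hat
    rw [integral_unif]
    congr 1
    refine sum_congr rfl fun m hm => ?_
    rw [e_eq', hY m hm]
    congr 1
    ring
  have hcard := SD_card_pos b hb D K hD
  have hW := hweyl K (by omega) D hD ((c * (p : ℝ) ^ N) * ((ℓ : ℝ) / (q : ℝ) ^ (s + J)))
    (fun y => G y * ((ℓ : ℝ) / (q : ℝ) ^ (s + J))) (PF_mul hG _) (by
    intro Q hQ hQZ a
    have hQ0 : (0 : ℝ) < Q := by exact_mod_cast hQ
    have hZe : ((b : ℝ) ^ K) ^ τ ≤ exp (η' / 4 * K) := by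
      rw [hZpow]
      apply exp_le_exp.2
      calc τ * K * log b = (τ * log b) * K := by ring
        _ ≤ η' / 4 * K := mul_le_mul_of_nonneg_right hτ2 hK0
    have hMe : exp (κ * log M) ≤ exp (η' / 4 * K) := by
      rw [hlM]
      apply exp_le_exp.2
      calc κ * (K * log b) = (κ * log b) * K := by ring
        _ ≤ η' / 4 * K := mul_le_mul_of_nonneg_right hκ2 hK0
    have hkC := hK₁ K (by omega)
    have hKC0 : (0 : ℝ) ≤ (K : ℝ) ^ C := Real.rpow_nonneg hK0 _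
    -- the coefficients
    have hcoef : ∀ i, (k : ℝ) * |(((Q : ℤ) * c * h i : ℤ) : ℝ)| ≤ exp (3 / 4 * η' * K) := by
      intro i
      push_cast
      rw [abs_mul, abs_mul, abs_of_pos hQ0]
      calc (k : ℝ) * (Q * |(c : ℝ)| * |(h i : ℝ)|) ≤ k * (exp (η' / 4 * K) * (K : ℝ) ^ C * exp (η' / 4 * K)) := by
            apply mul_le_mul_of_nonneg_left _ (by linarith)
            apply mul_le_mul _ ((hh i).trans hMe) (abs_nonneg _) (by positivity)
            exact mul_le_mul (hQZ.trans hZe) hcC (abs_nonneg _) (exp_pos _).le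
        _ = (k * (K : ℝ) ^ C) * (exp (η' / 4 * K) * exp (η' / 4 * K)) := by ring
        _ ≤ exp (η' / 4 * K) * (exp (η' / 4 * K) * exp (η' / 4 * K)) :=
            mul_le_mul_of_nonneg_right hkC (by positivity)
        _ = exp (3 / 4 * η' * K) := by
            rw [← Real.exp_add, ← Real.exp_add]
            congr 1
            ring
    have hcoef1 : ∀ i, |(((Q : ℤ) * c * h i : ℤ) : ℝ)| ≤ exp (3 / 4 * η' * K) := by
      intro i
      refine le_trans ?_ (hcoef i)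
      exact le_mul_of_one_le_left (abs_nonneg _) hk1
    have hsumeq : ∑ i, ((Q : ℤ) * c * h i) * (q : ℤ) ^ n i = (Q : ℤ) * c * ℓ := by
      rw [hℓ, mul_sum]
      exact sum_congr rfl fun i _ => by ring
    have hnd : ¬ (q : ℤ) ^ (s + J) ∣ ∑ i, ((Q : ℤ) * c * h i) * (q : ℤ) ^ n i := by
      rw [hsumeq]
      have hnz : (Q : ℤ) * c * ℓ ≠ 0 := by
        apply mul_ne_zero (mul_ne_zero _ hc0) hne
        exact_mod_cast (by omega : Q ≠ 0)
      intro hdv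
      have h1 := Int.le_of_dvd (abs_pos.2 hnz) ((dvd_abs _ _).2 hdv)
      have h2 : (q : ℝ) ^ (s + J) ≤ |(((Q : ℤ) * c * ℓ : ℤ) : ℝ)| := by exact_mod_cast h1
      have h3 : |(((Q : ℤ) * c * ℓ : ℤ) : ℝ)| ≤ exp (3 / 4 * η' * K) * (q : ℝ) ^ J := by
        rw [← hsumeq]
        push_cast
        refine (abs_sum_le_sum_abs _ _).trans ?_
        have h4 : ∀ i ∈ (univ : Finset (Fin k)), |(Q : ℝ) * c * h i * (q : ℝ) ^ n i| ≤
            exp (3 / 4 * η' * K) * (q : ℝ) ^ J / k := by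
          intro i _
          rw [abs_mul, abs_of_nonneg (by positivity : (0 : ℝ) ≤ (q : ℝ) ^ n i), le_div_iff₀ (by linarith)]
          have h5 := hcoef i
          push_cast at h5
          calc |(Q : ℝ) * c * h i| * (q : ℝ) ^ n i * k = (k * |(Q : ℝ) * c * h i|) * (q : ℝ) ^ n i := by ring
            _ ≤ exp (3 / 4 * η' * K) * (q : ℝ) ^ J :=
                mul_le_mul h5 (pow_le_pow_right₀ hq1 (hn i)) (by positivity) (exp_pos _).le
        refine (sum_le_sum h4).trans (le_of_eq ?_)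
        rw [sum_const, card_univ, Fintype.card_fin, nsmul_eq_mul]
        field_simp
      have h4 : (q : ℝ) ^ (s + J) = exp (s * log q) * (q : ℝ) ^ J := by
        rw [pow_add, Real.exp_nat_mul, Real.exp_log hq0]
      rw [h4] at h2
      have h5 : exp ((s : ℝ) * log q) ≤ exp (3 / 4 * η' * K) :=
        le_of_mul_le_mul_right (h2.trans h3) (by positivity)
      have h6 := exp_le_exp.1 h5
      have h7 : δ * K * log q ≤ s * log q := mul_le_mul_of_nonneg_right hs hlq.le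
      have h8 : η' * K ≤ δ * log q / 2 * K := mul_le_mul_of_nonneg_right hη'2 hK0
      have h9 : 0 < δ * K * log q := by positivity
      nlinarith
    have hF := hfar K (by omega) N (s + J) n (fun i => (Q : ℤ) * c * h i) a (((b : ℝ) ^ K) ^ ((d : ℝ) - δ)) hB1
      (hN.trans (mul_le_mul_of_nonneg_right ((le_abs_self A).trans hA₁A) hK0)) hJA
      (fun i => le_trans (by exact_mod_cast (by have := hn i; omega : n i ≤ s + J)) hJA) hJ
      (fun i => (hcoef1 i).trans (exp_le_exp.2 (by nlinarith))) hnd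
    rw [hsumeq] at hF
    have hθ : (p : ℝ) ^ N * ((((Q : ℤ) * c * ℓ : ℤ) : ℝ) / (q : ℝ) ^ (s + J)) - a =
        Q * ((c * (p : ℝ) ^ N) * ((ℓ : ℝ) / (q : ℝ) ^ (s + J)) - a / Q) := by
      push_cast
      field_simp
    rw [hθ, abs_mul, abs_of_pos hQ0] at hF
    obtain ⟨E, hE⟩ : ∃ E, E = |(c * (p : ℝ) ^ N) * ((ℓ : ℝ) / (q : ℝ) ^ (s + J)) - a / Q| := ⟨_, rfl⟩
    rw [← hE] at hF ⊢
    have hE0 : 0 ≤ E := by rw [hE]; exact abs_nonneg _
    have h1 : ((b : ℝ) ^ K) ^ ((d : ℝ) - δ) * (Q * E) ≤ ((b : ℝ) ^ K) ^ ((d : ℝ) - δ) * (((b : ℝ) ^ K) ^ τ * E) :=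
      mul_le_mul_of_nonneg_left (mul_le_mul_of_nonneg_right hQZ hE0) (by positivity)
    have h2 := hF.trans_le h1
    have h3 : exp (-(δ' * K)) = ((b : ℝ) ^ K) ^ (-(δ / 4)) := by
      rw [hZpow, hδ']
      congr 1
      ring
    rw [h3, ← mul_assoc, ← Real.rpow_add hZ0] at h2
    have h4 : ((b : ℝ) ^ K) ^ (-((d : ℝ) - δ / 2)) ≤ ((b : ℝ) ^ K) ^ (-((d : ℝ) - δ + τ)) * ((b : ℝ) ^ K) ^ (-(δ / 4)) := by
      rw [← Real.rpow_add hZ0]
      apply Real.rpow_le_rpow_of_exponent_le hZ1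
      linarith
    refine h4.trans_lt ?_
    have h5 : ((b : ℝ) ^ K) ^ (-((d : ℝ) - δ + τ)) * (((b : ℝ) ^ K) ^ ((d : ℝ) - δ + τ) * E) = E := by
      rw [← mul_assoc, ← Real.rpow_add hZ0 (-((d : ℝ) - δ + τ)) ((d : ℝ) - δ + τ), neg_add_cancel, Real.rpow_zero,
        one_mul]
    rw [← h5]
    exact mul_lt_mul_of_pos_left h2 (Real.rpow_pos_of_pos hZ0 _))
  rw [hsum, norm_mul, norm_div, norm_one, Complex.norm_natCast, one_div, inv_mul_le_iff₀ hcard]
  refine hW.trans (mul_le_mul_of_nonneg_left ?_ hcard.le)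
  rw [hZpow, hlM]
  apply exp_le_exp.2
  have : κ * (K * log b) ≤ η₂ * (K * log b) := mul_le_mul_of_nonneg_right hκ1 (by positivity)
  linarith

end Pool.Agent.J4.H78.PM
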